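import Pool.Agent.H80.DIC.Tree
import Pool.Agent.H31.W3.H3.D2G.RecH
import Pool.Agent.H3.W.Bas
import Pool.Agent.H31.W.H3.D2G.RecH
import Pool.Agent.H31.W.H73.D2.Tmw
import Pool.Agent.H31.W.H80.DIC.Dic
import Pool.Agent.H31.W.H80.DIC.Tree
import Pool.Agent.H57.SWC.Lx

/-!
# Cases at a window, place by place

`AllQ`: the property at the window. `CasW`: at every window in `W` a class theorem `CelZ` of a place
in `I` applies, all its conditions `Z lam` hold at the window. `CasW.cel`, `CasW.leaf`, `CasW.step`,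
`VoidL.cas`: the rules. `stas_of_c`: at almost every window one of the places is static.
`lCellB_of_c`, `lV0A_of_c`, `lV0B_of_c`, `lV01_of_c`: the joints. `VoidZ`, `CasV`, `void_of_c`: void
windows.
-/

set_option autoImplicit false

namespace Pool.W.PKG

open Pool.PKG

open MeasureTheory Set Filter Topology
open Pool.Agent.H49.Ent Pool.Agent.H32.Dense Pool.STK Pool.KA Pool.KSAT Pool.K2S Pool.PB
open Pool.GEN Pool.S6C Pool.STAT Pool.CHT Pool.GRW Pool.ONE Pool.STA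
open Pool.TOP (TopS)
open Pool.LA91 (sumQ)
open Pool.STR (ThinAt SteepAt StaAt sta_of_pairs)


section

variable {ι ι' Lm L₀ : Type} {n i : ℕ} {I : Set ℕ} {h : ℝ} {Sl : ℕ → ℝ} {κ : ℕ → Pool.PKG.Kg}
  {Q : Pool.PKG.PropG n ι} {Q' : Pool.PKG.PropG n ι'} {W W' : Pool.PKG.PropW n}

/-! ### The property -/


/-! ### Forms of a class theorem -/


theorem CelQH.cz (H : Pool.W.PKG.CelQH n i h Sl κ Q) : Pool.W.PKG.CelZ n i h Sl κ Q (fun _ : Unit => Pool.PKG.TruW n) := by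
  intro al hal K₀ hK₀ del hdel S₀ hS₀
  obtain ⟨K, N, A, V, h1, h2, H⟩ := H al hal K₀ hK₀ del hdel S₀ hS₀
  refine ⟨K, N, A, V, h1, h2, fun S₂ hS₂ => ?_⟩
  obtain ⟨K', N', V', h3, h4, ε, hε, H⟩ := H S₂ hS₂
  exact ⟨(), K', N', V', h3, h4, ε, hε, fun S g₀ P θ P₂ θ₂ Eb e₂ c Pt r L T G g hG hg hd _ =>
    H S g₀ P θ P₂ θ₂ Eb e₂ c Pt r L T G g hG hg hd⟩


theorem VoidQH.vz (H : Pool.W.PKG.VoidQH n h Sl κ Q) : Pool.W.PKG.VoidZ n h Sl κ Q (fun _ : Unit => Pool.PKG.TruW n) := by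
  intro al hal K₀ hK₀ S₀ hS₀
  obtain ⟨K, N, A, V, h1, h2, H⟩ := H al hal K₀ hK₀ S₀ hS₀
  refine ⟨K, N, A, V, h1, h2, fun S₂ hS₂ => ?_⟩
  obtain ⟨K', N', V', h3, h4, ε, hε, H⟩ := H S₂ hS₂
  exact ⟨(), K', N', V', h3, h4, ε, hε, fun S g₀ P θ P₂ θ₂ Eb e₂ c Pt r L T G g hG hg hd _ =>
    H S g₀ P θ P₂ θ₂ Eb e₂ c Pt r L T G g hG hg hd⟩


/-! ### The rules -/


end

variable {n : ℕ} {hn : 2 ≤ n} {S : Pool.PB.PCl n} {P : ℝ → ℝ → ℝ} {r : ℝ → ℝ}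
  {P' : ℕ → List (Fin n) × Fin n → ℝ → ℝ → ℝ} {Λ : Finset (Fin n) → Fin n → ℝ → ℝ → ℝ}
  {PB : ℕ → List (Fin n) × Fin n → ℝ → ℝ → ℝ}


end Pool.W.PKG

namespace Pool.W.ASM

open Pool.ASM

open MeasureTheory Set Filter Topology
open Pool.GEN Pool.PKG Pool.SW
open Pool.ONE (Ext0 Ext)
open Pool.MIC6
open Pool.STR (StaAt SteepAt ThinAt)


end Pool.W.ASM
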